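import Mathlib

set_option autoImplicit false
set_option maxSynthPendingDepth 3

namespace Pool.Agent.Results.MP_7875f2_co.Blocks
open SimpleGraph

/-- `H` is `F`-saturated relative to `G` -/
def Saturated {V W : Type} (G : SimpleGraph V) (F : SimpleGraph W) (H : SimpleGraph V) : Prop :=
  H ≤ G ∧ ¬ F.IsContained H ∧ ∀ u v, G.Adj u v → ¬ H.Adj u v → F.IsContained (H ⊔ edge u v)

/-- the saturation number -/
noncomputable def sat {V W : Type} (G : SimpleGraph V) (F : SimpleGraph W) : ℕ :=
  sInf {m : ℕ | ∃ H, Saturated G F H ∧ H.edgeSet.ncard = m}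

abbrev V := Fin 9 ⊕ Fin 9

def lab : V → Bool
  | Sum.inl a => decide (a.val ≤ 3)
  | Sum.inr b => decide (b.val ≤ 4)

def adjB : V → V → Bool
  | Sum.inl a, Sum.inr b => decide (a = 0) || (lab (Sum.inl a) == lab (Sum.inr b))
  | Sum.inr b, Sum.inl a => decide (a = 0) || (lab (Sum.inl a) == lab (Sum.inr b))
  | _, _ => false

def H : SimpleGraph V where
  Adj u v := adjB u v = true
  symm := ⟨by decide⟩
  loopless := ⟨by decide⟩

instance : DecidableRel H.Adj := fun u v => inferInstanceAs (Decidable (adjB u v = true))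

def tab : Fin 9 → Fin 9 → ℕ :=
  ![![0, 0, 0, 0, 0, 0, 0, 0, 0],
    ![0, 0, 0, 0, 0, 24353582872728065, 28857182231663105, 33360713139556865, 37846720580882945],
    ![0, 0, 0, 0, 0, 24353582872727810, 28857182231662850, 33360713139556610, 37846720580882690],
    ![0, 0, 0, 0, 0, 24353582872662275, 28857182231597315, 33360713139491075, 37846720580817155],
    ![899542521636180, 5403141880571220, 9906672788464980, 14392680229791060, 18896279857161556, 0, 0, 0, 0],
    ![899542521635925, 5403141880570965, 9906672788464725, 14392680229790805, 18896279857161301, 0, 0, 0, 0],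
    ![899542521570390, 5403141880505430, 9906672788399190, 14392680229725270, 18896279857095766, 0, 0, 0, 0],
    ![899542521570391, 5403141880505431, 9906672788399191, 14392680229725271, 18896279857095767, 0, 0, 0, 0],
    ![899542521570392, 5403141880505432, 9906672788399192, 14392680229725272, 18896279857095768, 0, 0, 0, 0]]

def cyc (a b : Fin 9) (i : Fin 14) : V :=
  if i.val % 2 = 0 then Sum.inl (Fin.ofNat 9 (tab a b / 16 ^ i.val % 16))
  else Sum.inr (Fin.ofNat 9 (tab a b / 16 ^ i.val % 16))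

lemma check : ∀ a b : Fin 9, adjB (Sum.inl a) (Sum.inr b) = false →
    (∀ i j, cyc a b i = cyc a b j → i = j) ∧ ∀ i, adjB (cyc a b i) (cyc a b (i + 1)) = true ∨
      (cyc a b i = Sum.inr b ∧ cyc a b (i + 1) = Sum.inl a) := by
  decide +kernel

lemma cadj : ∀ i j : Fin 14, (cycleGraph 14).Adj i j ↔ (j = i + 1 ∨ i = j + 1) := by
  decide +kernel

lemma fill (a b : Fin 9) (h : ¬ H.Adj (Sum.inl a) (Sum.inr b)) :
    (cycleGraph 14).IsContained (H ⊔ edge (Sum.inl a) (Sum.inr b)) := by
  obtain ⟨h1, h2⟩ := check a b (by simpa [H] using h)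
  have h3 : ∀ i, (H ⊔ edge (Sum.inl a) (Sum.inr b)).Adj (cyc a b i) (cyc a b (i + 1)) := by
    intro i
    rcases h2 i with e | ⟨e1, e2⟩
    · exact Or.inl e
    · right
      rw [e1, e2, edge_adj]
      simp
  refine ⟨⟨⟨cyc a b, fun {i j} hij => ?_⟩, fun i j e => h1 i j e⟩⟩
  rcases (cadj i j).mp hij with e | e
  · rw [e]; exact h3 i
  · rw [e]; exact (h3 j).symm

lemma free : ¬ (cycleGraph 14).IsContained H := by
  rintro ⟨⟨f, hf⟩⟩
  obtain ⟨i0, hi0⟩ : ∃ i0, ∀ i, i ≠ i0 → f i ≠ Sum.inl 0 := by
    by_cases h : ∃ i, f i = Sum.inl 0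
    · obtain ⟨i, hi⟩ := h
      exact ⟨i, fun j hj e => hj (hf (e.trans hi.symm))⟩
    · exact ⟨0, fun j _ e => h ⟨j, e⟩⟩
  have same : ∀ u v, adjB u v = true → u ≠ Sum.inl 0 → v ≠ Sum.inl 0 → lab u = lab v := by
    decide +kernel
  let g : Fin 13 → Fin 14 := fun j => i0 + j.succ
  have gne : ∀ j, g j ≠ i0 := fun j e => Fin.succ_ne_zero j (by simpa [g] using e)
  have step : ∀ j, lab (f (g j)) = lab (f (g 0)) := by
    intro j
    induction j using Fin.induction with
    | zero => rfl
    | succ j ih =>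
      rw [← ih]
      refine (same _ _ (f.map_rel ((cadj _ _).mpr (Or.inl ?_))) (hi0 _ (gne _))
        (hi0 _ (gne _))).symm
      have : ∀ j : Fin 12, (j.succ.succ : Fin 14) = j.castSucc.succ + 1 := by decide
      simp only [g, this, add_assoc]
  have h1 : (Finset.univ : Finset (Fin 13)).card ≤
      (Finset.univ.filter fun v : V => lab v = lab (f (g 0))).card := by
    refine Finset.card_le_card_of_injOn (fun j => f (g j)) (fun j _ => by simpa using step j)
      fun j _ k _ e => ?_
    simpa [g] using hf e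
  have h2 : ∀ c : Bool, (Finset.univ.filter fun v : V => lab v = c).card ≤ 9 := by decide +kernel
  have := h1.trans (h2 _)
  simp at this

theorem result : (∃ K, Saturated (completeBipartiteGraph (Fin 9) (Fin 9)) (cycleGraph (2 * 7)) K ∧
      K.edgeSet.ncard = 44) ∧
    sat (completeBipartiteGraph (Fin 9) (Fin 9)) (cycleGraph (2 * 7)) <
      9 + 9 + 7 ^ 2 - 3 * 7 + 1 := by
  have h : ∃ K, Saturated (completeBipartiteGraph (Fin 9) (Fin 9)) (cycleGraph (2 * 7)) K ∧
      K.edgeSet.ncard = 44 := by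
    refine ⟨H, ⟨?_, free, ?_⟩, ?_⟩
    · rintro (a | a) (b | b) h <;> simp_all [H, adjB]
    · rintro (a | a) (b | b) h1 h2
      · simp at h1
      · exact fill a b h2
      · rw [edge_comm]
        exact fill b a fun h => h2 h.symm
      · simp at h1
    · rw [← coe_edgeFinset, Set.ncard_coe_finset]
      have := H.sum_degrees_eq_twice_card_edges
      have h2 : ∑ v, H.degree v = 88 := by decide +kernel
      omega
  exact ⟨h, lt_of_le_of_lt (Nat.sInf_le h) (by norm_num)⟩

end Pool.Agent.Results.MP_7875f2_co.Blocks
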